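import Pool.Agent.H70.Ko3

open Pool.Agent.H72.GrigDefs Pool.Agent.H70.Ko

/-- Q1 holds: every element of the Grigorchuk group has its Koopman operator, and every quotient
of the Koopman C*-algebra by a nonzero closed two-sided ideal is finite-dimensional. -/
theorem Pool.Agent.Results.MP_759ce5_an.JustInfinite.result :
    GenProperImagesFinite (IsComp mu) {φ | ∃ g ∈ G, φ = bd g⁻¹} :=
  main
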